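import Pool.Agent.X76.PawGraph

set_option autoImplicit false

namespace Pool.Agent.Results.MP_3e1815_co.PawAlien

open Pool.Agent.X76.PawGraph

/-- For every `N ≥ 3` there are finite connected graphs `F`, `G` (`F` is the paw) with at least two
vertices such that `χ(F : -G) ≤ 2` and `χ(G : -F) ≤ 2`, but for every `n` with `3 ≤ n ≤ N` no finite
graph `H` has `χ(H : -F) = χ(H : -G) = n`. -/
theorem result (N : ℕ) (hN : 3 ≤ N) :
    ∃ (U V : Type) (_ : Finite U) (_ : Finite V) (_ : Nontrivial U) (_ : Nontrivial V)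
      (F : SimpleGraph U) (G : SimpleGraph V), F.Connected ∧ G.Connected ∧
      (∃ k, k ≤ 2 ∧ FreeChi F G k) ∧ (∃ k, k ≤ 2 ∧ FreeChi G F k) ∧
      ∀ n, 3 ≤ n → n ≤ N → ¬ RelatedN n F G :=
  ⟨Fin 4, _, inferInstance, inferInstance, inferInstance, ⟨.inl (x0 N), .inr 0, Sum.inl_ne_inr⟩,
    paw, GN N, paw_connected, GG_connected _ _, ⟨1, by norm_num, paw_free_big N (by omega)⟩,
    ⟨2, le_rfl, GG_freeChi_paw _ (x0 N) (shift_triangleFree _) _ (by omega)⟩,
    fun n h3 hn => not_related N n hn h3⟩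

end Pool.Agent.Results.MP_3e1815_co.PawAlien
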